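import Pool.Agent.H78R3.TSV.Defs

/-!
# The spectral norm of a tensor: the decision problems
-/

namespace Pool.Agent.H728.SN

open Pool.Agent.H78R3.TSV

/-- The value `T(x, y, z) = ∑ t_{ijk} x_i y_j z_k`. -/
def tval {d : ℕ} (t : Fin d → Fin d → Fin d → ℝ) (x y z : EuclideanSpace ℝ (Fin d)) : ℝ :=
  ∑ i, ∑ j, ∑ k, t i j k * x i * y j * z k

/-- The spectral norm of a real tensor: the largest value of `|T(x, y, z)|` on unit vectors. -/
noncomputable def spectralNorm {d : ℕ} (t : Fin d → Fin d → Fin d → ℝ) : ℝ :=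
  sSup {r | ∃ x y z : EuclideanSpace ℝ (Fin d), ‖x‖ = 1 ∧ ‖y‖ = 1 ∧ ‖z‖ = 1 ∧
    r = |tval t x y z|}

/-- The decision problem **Spectral Norm Bound**: the input is a `d × d × d` tensor with rational
entries (a nested list `q.1`; `d` is its length) and a positive rational number `σ = q.2`; the
question is whether the spectral norm is at most `σ`. -/
def NormBound (q : List (List (List ℚ)) × ℚ) : Prop :=
  IsCube q.1 ∧ 0 < q.2 ∧
    spectralNorm (fun i j k : Fin q.1.length => ((entry q.1 i j k : ℚ) : ℝ)) ≤ (q.2 : ℝ)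

/-- The decision problem **Spectral Norm Exceed**: the question is whether the spectral norm is
larger than `σ`. -/
def NormExceed (q : List (List (List ℚ)) × ℚ) : Prop :=
  IsCube q.1 ∧ 0 < q.2 ∧
    (q.2 : ℝ) < spectralNorm (fun i j k : Fin q.1.length => ((entry q.1 i j k : ℚ) : ℝ))

end Pool.Agent.H728.SN
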