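import Pool.Agent.H78R3.TSV.Sing

/-!
# Approximate solutions of a homogeneous system from large values of a sum of squares
-/

namespace Pool.Agent.H728.SN

open Finset Pool.Agent.H78R3.TSV

/-- The forms: `4096` copies of the forms of the system, and one more form. -/
def xforms (n : ℕ) (G : List QC) (E : ℕ) : List (List QT) :=
  (List.range 4096).flatMap (fun _ => forms n G) ++ [[((1 : ℤ), E, 0)]]

theorem S_repeat (x y x' y' : ℕ → ℝ) (L : List (List QT)) (r : ℕ) :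
    S x y x' y' ((List.range r).flatMap fun _ => L) = r * S x y x' y' L := by
  rw [S_flatMap]
  simp

theorem S_xforms (x y : ℕ → ℝ) {n : ℕ} {G : List QC} (hG : ∀ g ∈ G, GOk n g) (E : ℕ) :
    S x y x y (xforms n G E) = 4096 * (576 * (G.length : ℝ) ^ 2 *
      (2 * ((∑ i ∈ range n, x i ^ 2) * (∑ i ∈ range n, y i ^ 2)) +
        2 * (∑ i ∈ range n, x i * y i) ^ 2) -
        (G.length : ℝ) * (G.map (fun g => gev x y g ^ 2)).sum) + bev x y (E, 0) ^ 2 := by
  unfold xforms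
  rw [S_append, S_repeat, S_forms x y x y n G hG, sum_bev]
  have e1 : ∑ i ∈ range n, x i * x i = ∑ i ∈ range n, x i ^ 2 :=
    sum_congr rfl fun i _ => by ring
  have e2 : ∑ i ∈ range n, y i * y i = ∑ i ∈ range n, y i ^ 2 :=
    sum_congr rfl fun i _ => by ring
  have e3 : ∑ i ∈ range n, y i * x i = ∑ i ∈ range n, x i * y i :=
    sum_congr rfl fun i _ => by ring
  have e4 : (G.map fun g => gev x y g * gev x y g) = G.map fun g => gev x y g ^ 2 :=
    List.map_congr_left fun g _ => by ring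
  rw [e1, e2, e3, e4, S_cons, S_nil, fev_cons, fev_nil]
  simp only [tev]
  push_cast
  ring

theorem bev_linear (x : ℕ → ℝ) (a b : ℝ) (y z w : ℕ → ℝ) (h : ∀ i, w i = a * y i + b * z i)
    (p : ℕ × ℕ) : bev x w p = a * bev x y p + b * bev x z p := by
  unfold bev
  rw [h, h]
  ring

theorem gev_linear (x : ℕ → ℝ) (a b : ℝ) (y z w : ℕ → ℝ) (h : ∀ i, w i = a * y i + b * z i)
    (g : QC) : gev x w g = a * gev x y g + b * gev x z g := by
  unfold gev tev
  rw [bev_linear x a b y z w h, bev_linear x a b y z w h, bev_linear x a b y z w h]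
  ring

theorem abs_le_of_sum {n : ℕ} {x : ℕ → ℝ} {r : ℝ} (hr : 0 ≤ r)
    (h : ∑ i ∈ range n, x i ^ 2 ≤ r ^ 2) {i : ℕ} (hi : i < n) : |x i| ≤ r := by
  have h1 : x i ^ 2 ≤ ∑ i ∈ range n, x i ^ 2 :=
    single_le_sum (f := fun i => x i ^ 2) (fun i _ => sq_nonneg (x i)) (mem_range.2 hi)
  exact abs_le_of_sq_le_sq (h1.trans h) hr

theorem abs_bev_le {n : ℕ} {x w : ℕ → ℝ} {ω : ℝ} (hω : 0 ≤ ω)
    (hx : ∑ i ∈ range n, x i ^ 2 ≤ 1) (hw : ∑ i ∈ range n, w i ^ 2 ≤ ω ^ 2) {p : ℕ × ℕ}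
    (h1 : p.1 < n) (h2 : p.2 < n) : |bev x w p| ≤ 2 * ω := by
  have hx' : ∑ i ∈ range n, x i ^ 2 ≤ (1 : ℝ) ^ 2 := by rw [one_pow]; exact hx
  have a1 := abs_le_of_sum zero_le_one hx' h1
  have a2 := abs_le_of_sum zero_le_one hx' h2
  have b1 := abs_le_of_sum hω hw h1
  have b2 := abs_le_of_sum hω hw h2
  unfold bev
  calc |x p.1 * w p.2 + x p.2 * w p.1| ≤ |x p.1 * w p.2| + |x p.2 * w p.1| := abs_add_le _ _
    _ = |x p.1| * |w p.2| + |x p.2| * |w p.1| := by rw [abs_mul, abs_mul]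
    _ ≤ 1 * ω + 1 * ω := by gcongr
    _ = 2 * ω := by ring

theorem abs_tev_le {n : ℕ} {x w : ℕ → ℝ} {ω : ℝ} (hω : 0 ≤ ω)
    (hx : ∑ i ∈ range n, x i ^ 2 ≤ 1) (hw : ∑ i ∈ range n, w i ^ 2 ≤ ω ^ 2) {t : QT}
    (ht : TOk n t) : |tev x w t| ≤ 16 * ω := by
  obtain ⟨h0, h1, h2⟩ := ht
  unfold tev
  rw [abs_mul]
  have h3 : |((t.1 : ℤ) : ℝ)| ≤ 8 := by
    rw [← Int.cast_abs, Int.abs_eq_natAbs]
    exact_mod_cast h0
  have h4 := abs_bev_le hω hx hw h1 h2
  calc |((t.1 : ℤ) : ℝ)| * |bev x w t.2| ≤ 8 * (2 * ω) := by gcongr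
    _ = 16 * ω := by ring

theorem abs_gev_le {n : ℕ} {x w : ℕ → ℝ} {ω : ℝ} (hω : 0 ≤ ω)
    (hx : ∑ i ∈ range n, x i ^ 2 ≤ 1) (hw : ∑ i ∈ range n, w i ^ 2 ≤ ω ^ 2) {g : QC}
    (hg : GOk n g) : |gev x w g| ≤ 48 * ω := by
  have h1 := abs_tev_le hω hx hw hg.1
  have h2 := abs_tev_le hω hx hw hg.2.1
  have h3 := abs_tev_le hω hx hw hg.2.2
  unfold gev
  have h4 := abs_add_le (tev x w g.1 + tev x w g.2.1) (tev x w g.2.2)
  have h5 := abs_add_le (tev x w g.1) (tev x w g.2.1)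
  linarith

theorem sq_le_sum_of_mem {G : List QC} {φ : QC → ℝ} {g : QC} (hg : g ∈ G) :
    φ g ^ 2 ≤ (G.map fun g => φ g ^ 2).sum := by
  refine List.single_le_sum ?_ _ (List.mem_map.2 ⟨g, hg, rfl⟩)
  intro a ha
  obtain ⟨g', -, rfl⟩ := List.mem_map.1 ha
  exact sq_nonneg _

/-- The main estimate. -/
theorem approx_of_large {n : ℕ} {G : List QC} (hG : ∀ g ∈ G, GOk n g) (hne : G ≠ []) {E : ℕ}
    (hE : E < n) {x y : ℕ → ℝ} (hx : ∑ i ∈ range n, x i ^ 2 ≤ 1)
    (hy : ∑ i ∈ range n, y i ^ 2 ≤ 1)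
    (hF : (3072 * (G.length : ℝ)) ^ 2 < S x y x y (xforms n G E)) :
    x E * x 0 ≠ 0 ∧ ∀ g ∈ G, |gev x x g| ≤ 1 / 8 * |x E * x 0| := by
  rw [S_xforms x y hG] at hF
  set m : ℝ := (G.length : ℝ) with hm
  have hm1 : 1 ≤ m := by
    have h1 : 1 ≤ G.length := List.length_pos_iff.2 hne
    rw [hm]
    exact_mod_cast h1
  set A := ∑ i ∈ range n, x i ^ 2 with hA
  set B := ∑ i ∈ range n, y i ^ 2 with hB
  set C := ∑ i ∈ range n, x i * y i with hC
  set Q := (G.map (fun g => gev x y g ^ 2)).sum with hQ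
  set N := bev x y (E, 0) with hN
  have hA0 : 0 ≤ A := sum_nonneg fun i _ => sq_nonneg _
  have hB0 : 0 ≤ B := sum_nonneg fun i _ => sq_nonneg _
  have hCS : C ^ 2 ≤ A * B := sum_mul_sq_le_sq_mul_sq _ _ _
  have hAB : A * B ≤ 1 := by nlinarith
  have hABA : A * B ≤ A := by nlinarith
  have hQ0 : 0 ≤ Q := by
    apply List.sum_nonneg
    intro a ha
    obtain ⟨g, -, rfl⟩ := List.mem_map.1 ha
    exact sq_nonneg _
  have hm2 : 1 ≤ m ^ 2 := by nlinarith
  have h0n : 0 < n := by omega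
  have hN2 : |N| ≤ 2 := by
    have := abs_bev_le (n := n) (x := x) (w := y) (ω := 1) zero_le_one hx
      (by rw [one_pow]; exact hy) (p := (E, 0)) hE h0n
    linarith
  -- the basic inequality
  have key : 4096 * (1152 * m ^ 2 * (2 - A * B - C ^ 2) + m * Q) < N ^ 2 := by
    have e : (3072 * m) ^ 2 = 4096 * (2304 * m ^ 2) := by ring
    rw [e] at hF
    nlinarith
  have hN4 : N ^ 2 ≤ 4 := by
    rw [← sq_abs]
    nlinarith [abs_nonneg N]
  have hpos1 : 0 ≤ 2 - A * B - C ^ 2 := by linarith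
  have hmQ : 0 ≤ m * Q := mul_nonneg (by linarith) hQ0
  have k1 : 4718592 * (2 - A * B - C ^ 2) < N ^ 2 := by
    have : 2 - A * B - C ^ 2 ≤ m ^ 2 * (2 - A * B - C ^ 2) := by nlinarith
    nlinarith
  have k2 : 4096 * Q < N ^ 2 := by
    have : Q ≤ m * Q := by nlinarith
    have h2 : 0 ≤ 1152 * m ^ 2 * (2 - A * B - C ^ 2) := by positivity
    linarith
  have hNne : N ≠ 0 := by
    intro h
    rw [h] at k2
    nlinarith
  have hC99 : 99 / 100 < C ^ 2 := by nlinarith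
  have hA99 : 99 / 100 < A := by linarith
  have hCne : C ≠ 0 := by
    intro h
    rw [h] at hC99
    norm_num at hC99
  have hCabs : 0 < |C| := abs_pos.2 hCne
  -- the small vector
  let w : ℕ → ℝ := fun i => C * x i + (-A) * y i
  have hw : ∑ i ∈ range n, w i ^ 2 = A * (A * B - C ^ 2) := by
    have e : ∀ i, w i ^ 2 = C ^ 2 * x i ^ 2 + A ^ 2 * y i ^ 2 - 2 * A * C * (x i * y i) := by
      intro i
      simp only [w]
      ring
    simp_rw [e]
    rw [sum_sub_distrib, sum_add_distrib, ← mul_sum, ← mul_sum, ← mul_sum, ← hA, ← hB, ← hC]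
    ring
  have hNa : 0 < |N| := abs_pos.2 hNne
  have hw2 : ∑ i ∈ range n, w i ^ 2 ≤ (|N| / 2172) ^ 2 := by
    rw [hw, div_pow, sq_abs]
    have h1 : A * (A * B - C ^ 2) ≤ A * B - C ^ 2 := by nlinarith
    have h2 : 4718592 * (A * B - C ^ 2) ≤ N ^ 2 := by nlinarith
    rw [le_div_iff₀ (by norm_num)]
    nlinarith
  have hω : 0 ≤ |N| / 2172 := by positivity
  have hlin : ∀ i, C * x i = 1 * w i + A * y i := by
    intro i
    simp only [w]
    ring
  have eg : ∀ g, C * gev x x g = gev x w g + A * gev x y g := by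
    intro g
    have h1 := gev_linear x 1 A w y (fun i => C * x i) hlin g
    have h2 := gev_linear x C 0 x x (fun i => C * x i) (fun i => by ring) g
    rw [h2] at h1
    linarith
  have eb : C * bev x x (E, 0) = bev x w (E, 0) + A * N := by
    have h1 := bev_linear x 1 A w y (fun i => C * x i) hlin (E, 0)
    have h2 := bev_linear x C 0 x x (fun i => C * x i) (fun i => by ring) (E, 0)
    rw [h2] at h1
    linarith
  have hb : bev x x (E, 0) = 2 * (x E * x 0) := by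
    unfold bev
    simp only
    ring
  set P := |x E * x 0| with hP
  have hP0 : 0 ≤ P := abs_nonneg _
  have hNP : |N| ≤ 21 / 10 * (|C| * P) := by
    have h1 := abs_bev_le (n := n) hω hx hw2 (p := (E, 0)) hE h0n
    have h2 : A * N = C * (2 * (x E * x 0)) - bev x w (E, 0) := by rw [← hb]; linarith
    have h3 : A * |N| ≤ 2 * (|C| * P) + 2 * (|N| / 2172) := by
      calc A * |N| = |A * N| := by rw [abs_mul, abs_of_nonneg hA0]
        _ = |C * (2 * (x E * x 0)) - bev x w (E, 0)| := by rw [h2]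
        _ ≤ |C * (2 * (x E * x 0))| + |bev x w (E, 0)| := abs_sub _ _
        _ ≤ 2 * (|C| * P) + 2 * (|N| / 2172) := by
          have : |C * (2 * (x E * x 0))| = 2 * (|C| * P) := by
            rw [abs_mul, abs_mul, abs_two]
            ring
          rw [this]
          linarith
    have h4 : 99 / 100 * |N| ≤ A * |N| := mul_le_mul_of_nonneg_right hA99.le (abs_nonneg N)
    linarith
  have hPpos : 0 < P := by
    by_contra h
    have : P = 0 := le_antisymm (not_lt.1 h) hP0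
    rw [this, mul_zero, mul_zero] at hNP
    linarith
  refine ⟨abs_pos.1 hPpos, fun g hg => ?_⟩
  have g1 := abs_gev_le (n := n) hω hx hw2 (hG g hg)
  have g2 : |gev x y g| ≤ |N| / 64 := by
    have h1 : gev x y g ^ 2 ≤ Q := sq_le_sum_of_mem (φ := fun g => gev x y g) hg
    refine abs_le_of_sq_le_sq ?_ (by positivity)
    rw [div_pow, sq_abs, le_div_iff₀ (by norm_num)]
    linarith
  have g3 : |C| * |gev x x g| ≤ 48 * (|N| / 2172) + |N| / 64 := by
    calc |C| * |gev x x g| = |C * gev x x g| := (abs_mul _ _).symm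
      _ = |gev x w g + A * gev x y g| := by rw [eg]
      _ ≤ |gev x w g| + |A * gev x y g| := abs_add_le _ _
      _ = |gev x w g| + A * |gev x y g| := by rw [abs_mul A, abs_of_nonneg hA0]
      _ ≤ 48 * (|N| / 2172) + |N| / 64 := by
        have : A * |gev x y g| ≤ |gev x y g| := by nlinarith [abs_nonneg (gev x y g)]
        linarith
  have g4 : |C| * |gev x x g| ≤ |C| * (1 / 8 * P) := by
    have : |C| * (1 / 8 * P) = 1 / 8 * (|C| * P) := by ring
    rw [this]
    linarith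
  exact le_of_mul_le_mul_left g4 hCabs

end Pool.Agent.H728.SN
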