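import Pool.Agent.H728.SN.Time
import Pool.Agent.H78R3.TSV.Mem
import Pool.Agent.H612.AR

/-!
# Membership, and the completeness theorems
-/

namespace Pool.Agent.NPC.H728SN

open Pool.Agent.NPC Pool.Agent.NPC.ER Pool.Agent.H78R3.TSV Pool.Agent.H728.SN
open Pool.Agent.NPC.H670R2 Pool.Agent.NPC.H78TSV
open Finset

/-- The formula for the value of the tensor. -/
def fG (d : ℕ) : Fm :=
  Fm.lt (Tm.var (vs d)) (sumTm ((List.range d).map fun k => Tm.mul (Tm.var (4 * k + 2))
    (sumTm ((List.range d).flatMap fun i => (List.range d).map fun j =>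
      Tm.mul (Tm.mul (Tm.var (vw d i j k)) (Tm.var (4 * i))) (Tm.var (4 * j + 1))))))

/-- The list of the formulas. -/
def fAllX (q : List (List (List ℚ)) × ℚ) : List Fm :=
  fU q.1.length 0 :: fU q.1.length 1 :: fU q.1.length 2 ::
    eqRat (Tm.var (vs q.1.length)) q.2 :: fG q.1.length :: fEnt q.1

/-- The formula for a large value. -/
def fExc (q : List (List (List ℚ)) × ℚ) : Fm := conj (fAllX q)

/-- The formula for Spectral Norm Exceed. -/
def fNE (q : List (List (List ℚ)) × ℚ) : Fm :=
  bif isCubeB q.1 && isPosB q.2 then fExc q else H670R2.ff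

/-- The formula for the failure of Spectral Norm Bound. -/
def fNB (q : List (List (List ℚ)) × ℚ) : Fm :=
  bif isCubeB q.1 && isPosB q.2 then fExc q else H670R2.tt

theorem holds_fG (d : ℕ) (v : ℕ → ℝ) : (fG d).Holds v ↔
    v (vs d) < ∑ k ∈ range d, v (4 * k + 2) *
      ∑ i ∈ range d, ∑ j ∈ range d, v (vw d i j k) * v (4 * i) * v (4 * j + 1) := by
  unfold fG
  simp only [Fm.Holds, eval_sumTm, List.map_map, Tm.eval]
  rw [show (Tm.eval v ∘ fun k => Tm.mul (Tm.var (4 * k + 2))
    (sumTm ((List.range d).flatMap fun i => (List.range d).map fun j =>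
      Tm.mul (Tm.mul (Tm.var (vw d i j k)) (Tm.var (4 * i))) (Tm.var (4 * j + 1))))) =
    fun k => v (4 * k + 2) *
      ∑ i ∈ range d, ∑ j ∈ range d, v (vw d i j k) * v (4 * i) * v (4 * j + 1) from
    funext fun k => by
      simp only [Function.comp, Tm.eval, eval_sumTm, sum_flatMap_range, sum_list_range],
    sum_list_range]

theorem holds_fAllX (q : List (List (List ℚ)) × ℚ) (v : ℕ → ℝ) :
    (∀ φ ∈ fAllX q, φ.Holds v) ↔ (fU q.1.length 0).Holds v ∧ (fU q.1.length 1).Holds v ∧
      (fU q.1.length 2).Holds v ∧ (eqRat (Tm.var (vs q.1.length)) q.2).Holds v ∧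
      (fG q.1.length).Holds v ∧ (∀ φ ∈ fEnt q.1, φ.Holds v) := by
  unfold fAllX
  simp only [List.forall_mem_cons]

/-- **Correctness of the formula.** -/
theorem etr_fExc (q : List (List (List ℚ)) × ℚ) : ETR (fExc q) ↔
    Large q.1.length (fun i j k => ((entry q.1 i j k : ℚ) : ℝ)) (q.2 : ℝ) := by
  unfold fExc ETR
  simp_rw [holds_conj, holds_fAllX, holds_fU, holds_fEnt, holds_fG, holds_eqRat]
  set d := q.1.length with hd
  constructor
  · rintro ⟨v, hx, hy, hz, v3, g, v4⟩
    simp only [Tm.eval] at v3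
    refine ⟨fun i => v (4 * i), fun i => v (4 * i + 1), fun i => v (4 * i + 2), hx, hy, hz, ?_⟩
    rw [v3] at g
    refine lt_of_lt_of_eq g ?_
    refine Finset.sum_congr rfl fun k hk => ?_
    congr 1
    exact Finset.sum_congr rfl fun i hi => Finset.sum_congr rfl fun j hj => by
      rw [v4 i (Finset.mem_range.1 hi) j (Finset.mem_range.1 hj) k (Finset.mem_range.1 hk)]
  · rintro ⟨x, y, z, hx, hy, hz, g⟩
    let v : ℕ → ℝ := fun n => if n % 4 = 0 then x (n / 4) else if n % 4 = 1 then y (n / 4) else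
      if n % 4 = 2 then z (n / 4) else
      if n / 4 = d * d * d then (q.2 : ℝ) else
        ((entry q.1 (n / 4 / d / d) (n / 4 / d % d) (n / 4 % d) : ℚ) : ℝ)
    have v0 : ∀ i, v (4 * i) = x i := by
      intro i
      simp only [v]
      rw [if_pos (by omega)]
      congr 1; omega
    have v0' : ∀ i, v (4 * i + 0) = x i := v0
    have v1 : ∀ i, v (4 * i + 1) = y i := by
      intro i
      simp only [v]
      rw [if_neg (by omega), if_pos (by omega)]
      congr 1; omega
    have v2 : ∀ i, v (4 * i + 2) = z i := by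
      intro i
      simp only [v]
      rw [if_neg (by omega), if_neg (by omega), if_pos (by omega)]
      congr 1; omega
    have v3 : v (vs d) = (q.2 : ℝ) := by
      simp only [v, vs]
      rw [if_neg (by omega), if_neg (by omega), if_neg (by omega), if_pos (by omega)]
    have v4 : ∀ i < d, ∀ j < d, ∀ k < d, v (vw d i j k) = ((entry q.1 i j k : ℚ) : ℝ) := by
      intro i hi j hj k hk
      have e0 : (4 * ((i * d + j) * d + k) + 3) / 4 = (i * d + j) * d + k := by omega
      have hd0 : 0 < d := by omega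
      have e1 : ((i * d + j) * d + k) % d = k := by
        rw [Nat.mul_comm, Nat.mul_add_mod, Nat.mod_eq_of_lt hk]
      have e2 : ((i * d + j) * d + k) / d = i * d + j := by
        rw [Nat.mul_comm, Nat.mul_add_div hd0, Nat.div_eq_of_lt hk, Nat.add_zero]
      have e3 : (i * d + j) % d = j := by
        rw [Nat.mul_comm, Nat.mul_add_mod, Nat.mod_eq_of_lt hj]
      have e4 : (i * d + j) / d = i := by
        rw [Nat.mul_comm, Nat.mul_add_div hd0, Nat.div_eq_of_lt hj, Nat.add_zero]
      have e5 : (i * d + j) * d + k ≠ d * d * d := by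
        have h5 : i * d + j < d * d := by
          calc i * d + j < i * d + d := by omega
            _ = (i + 1) * d := by ring
            _ ≤ d * d := Nat.mul_le_mul_right _ hi
        have h6 : (i * d + j) * d + k < d * d * d := by
          calc (i * d + j) * d + k < (i * d + j) * d + d := by omega
            _ = (i * d + j + 1) * d := by ring
            _ ≤ d * d * d := Nat.mul_le_mul_right _ h5
        omega
      simp only [v, vw]
      rw [if_neg (by omega), if_neg (by omega), if_neg (by omega), e0, if_neg e5, e2, e4, e1, e3]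
    refine ⟨v, ?_, ?_, ?_, v3, ?_, v4⟩
    · simp_rw [v0']; exact hx
    · simp_rw [v1]; exact hy
    · simp_rw [v2]; exact hz
    · rw [v3]
      refine lt_of_lt_of_eq g ?_
      refine Finset.sum_congr rfl fun k hk => ?_
      rw [v2]
      congr 1
      exact Finset.sum_congr rfl fun i hi => Finset.sum_congr rfl fun j hj => by
        rw [v4 i (Finset.mem_range.1 hi) j (Finset.mem_range.1 hj) k (Finset.mem_range.1 hk),
          v0, v1]

theorem exceed_iff_etr (q : List (List (List ℚ)) × ℚ) : NormExceed q ↔ ETR (fNE q) := by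
  rw [exceed_iff]
  unfold fNE
  by_cases hq : isCubeB q.1 = true ∧ isPosB q.2 = true
  · have hb : (isCubeB q.1 && isPosB q.2) = true := by rw [hq.1, hq.2]; rfl
    rw [hb, cond_true, etr_fExc]
    exact ⟨fun h => h.2.2, fun h => ⟨(isCubeB_iff _).1 hq.1, (isPosB_iff _).1 hq.2, h⟩⟩
  · have hb : (isCubeB q.1 && isPosB q.2) = false := by
      rw [Bool.eq_false_iff]
      intro h
      exact hq (Bool.and_eq_true_iff.1 h)
    rw [hb, cond_false]
    constructor
    · rintro ⟨h1, h2, -⟩
      exact absurd ⟨(isCubeB_iff _).2 h1, (isPosB_iff _).2 h2⟩ hq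
    · intro h
      exact absurd h H670R2.not_etr_ff

theorem not_bound_iff_etr (q : List (List (List ℚ)) × ℚ) : ¬ NormBound q ↔ ETR (fNB q) := by
  unfold fNB
  by_cases hq : isCubeB q.1 = true ∧ isPosB q.2 = true
  · have hb : (isCubeB q.1 && isPosB q.2) = true := by rw [hq.1, hq.2]; rfl
    rw [hb, cond_true, etr_fExc, bound_iff_not_exceed ((isCubeB_iff _).1 hq.1)
      ((isPosB_iff _).1 hq.2), not_not, exceed_iff]
    exact ⟨fun h => h.2.2, fun h => ⟨(isCubeB_iff _).1 hq.1, (isPosB_iff _).1 hq.2, h⟩⟩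
  · have hb : (isCubeB q.1 && isPosB q.2) = false := by
      rw [Bool.eq_false_iff]
      intro h
      exact hq (Bool.and_eq_true_iff.1 h)
    rw [hb, cond_false]
    constructor
    · intro _
      exact ⟨fun _ => 0, H670R2.holds_tt _⟩
    · rintro - ⟨h1, h2, -⟩
      exact absurd ⟨(isCubeB_iff _).2 h1, (isPosB_iff _).2 h2⟩ hq

theorem poly_fG {α : Type} [TEnc α] {d : α → ℕ} (hd : UPoly d) : Poly (fun a => fG (d a)) := by
  have a1 : Poly (fun p : α × ℕ => p.1) := Poly.fst Poly.id
  have a2 : Poly (fun p : α × ℕ => p.2) := Poly.snd Poly.id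
  have e1 : Poly (fun p : ((α × ℕ) × ℕ) × ℕ => p.1.1.1) :=
    Poly.fst (Poly.fst (Poly.fst Poly.id))
  have e2 : Poly (fun p : ((α × ℕ) × ℕ) × ℕ => p.1.1.2) :=
    Poly.snd (Poly.fst (Poly.fst Poly.id))
  have e3 : Poly (fun p : ((α × ℕ) × ℕ) × ℕ => p.1.2) := Poly.snd (Poly.fst Poly.id)
  have e4 : Poly (fun p : ((α × ℕ) × ℕ) × ℕ => p.2) := Poly.snd Poly.id
  refine poly_lt (poly_tvar (poly_vs hd.toPoly)) (poly_sumTm (Poly.map (F := fun a k =>
    Tm.mul (Tm.var (4 * k + 2)) (sumTm ((List.range (d a)).flatMap fun i =>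
      (List.range (d a)).map fun j => Tm.mul (Tm.mul (Tm.var (vw (d a) i j k))
        (Tm.var (4 * i))) (Tm.var (4 * j + 1))))) hd.range ?_))
  refine poly_tmul (poly_lin a2 2) ?_
  refine poly_sum2 (F := fun (p : α × ℕ) i j => Tm.mul (Tm.mul (Tm.var (vw (d p.1) i j p.2))
    (Tm.var (4 * i))) (Tm.var (4 * j + 1))) (hd.comp a1) ?_
  exact poly_tmul (poly_tmul (poly_tvar (poly_vw (hd.toPoly.comp e1) e3 e4 e2)) (poly_lin0 e3))
    (poly_lin e4 1)

theorem poly_fExc : Poly fExc := by
  have h1 : Poly (fun q : List (List (List ℚ)) × ℚ => q.1) := Poly.fst Poly.id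
  have h2 : Poly (fun q : List (List (List ℚ)) × ℚ => q.2) := Poly.snd Poly.id
  have hd : UPoly (fun q : List (List (List ℚ)) × ℚ => q.1.length) := UPoly.length h1
  exact poly_conj (Poly.cons (poly_fU hd 0) (Poly.cons (poly_fU hd 1) (Poly.cons (poly_fU hd 2)
      (Poly.cons (poly_eqRat (poly_tvar (poly_vs hd.toPoly)) h2)
        (Poly.cons (poly_fG hd) (poly_fEnt h1))))))

theorem poly_test : Poly (fun q : List (List (List ℚ)) × ℚ => isCubeB q.1 && isPosB q.2) := by
  have h1 : Poly (fun q : List (List (List ℚ)) × ℚ => q.1) := Poly.fst Poly.id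
  have h2 : Poly (fun q : List (List (List ℚ)) × ℚ => q.2) := Poly.snd Poly.id
  have hd : UPoly (fun q : List (List (List ℚ)) × ℚ => q.1.length) := UPoly.length h1
  refine Poly.and ?_ ?_
  · refine Poly.all (p := fun (q : List (List (List ℚ)) × ℚ) a =>
      decide (a.length = q.1.length) && a.all fun b => decide (b.length = q.1.length)) h1 ?_
    refine Poly.and (Poly.decide_eq (Poly.length (Poly.snd Poly.id))
      (hd.toPoly.comp (Poly.fst Poly.id))) ?_
    refine Poly.all (p := fun (r : (List (List (List ℚ)) × ℚ) × List (List ℚ)) b =>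
      decide (b.length = r.1.1.length)) (Poly.snd Poly.id) ?_
    exact Poly.decide_eq (Poly.length (Poly.snd Poly.id))
      (hd.toPoly.comp (Poly.fst (Poly.fst Poly.id)))
  · exact Poly.and (Poly.not (poly_isNeg (poly_ratNum h2)))
      (Poly.not (Poly.decide_eq (poly_natAbs (poly_ratNum h2)) (Poly.const 0)))

/-- Spectral Norm Exceed belongs to `∃ℝ`. -/
theorem exceed_mem : InER (lang NormExceed) :=
  ER.InER.of_poly (Poly.cond poly_test poly_fExc (Poly.const _)) exceed_iff_etr

/-- Spectral Norm Bound belongs to `∀ℝ`. -/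
theorem bound_mem : InAR (lang NormBound) :=
  InAR.of_poly (φ := fNB) (Poly.cond poly_test poly_fExc (Poly.const _)) not_bound_iff_etr

/-- Spectral Norm Exceed is `∃ℝ`-hard. -/
theorem exceed_hard : ERHard (lang NormExceed) :=
  ERHard.of_sys (poly_instX Poly.id) sat_iff_exceed

/-- Spectral Norm Bound is `∀ℝ`-hard. -/
theorem bound_hard : ARHard (lang NormBound) :=
  ARHard.of_sys (poly_instX Poly.id) sat_iff_not_bound

end Pool.Agent.NPC.H728SN
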