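import Pool.Agent.H78R3.TSV.Sing
import Pool.Agent.ER.GapSys

/-!
# A homogeneous quadratic system with a tiny number

The system contains a chain `x₀/8, (x₀/8)²/x₀, …` of variables. If all the equations hold up to an
error which is small compared with the last member of the chain, then the original system is
satisfiable, by the gap theorem.
-/

namespace Pool.Agent.H728.SN

open Finset Pool.Agent.NPC Pool.Agent.NPC.ER Pool.Agent.H78R3.TSV

/-- The index of a variable. -/
def ixx (V : List ℕ) (i : ℕ) : ℕ := 3 * V.idxOf i + 1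

/-- The homogeneous quadratic constraint of a constraint (the constant is `1/8`). -/
def hc (V : List ℕ) : ER.Con → QC
  | ER.Con.one i => ((8, ixx V i, 0), (-1, 0, 0), (0, 0, 0))
  | ER.Con.add i j k => ((1, ixx V i, 0), (1, ixx V j, 0), (-1, ixx V k, 0))
  | ER.Con.mul i j k => ((1, ixx V i, ixx V j), (-1, ixx V k, 0), (0, 0, 0))

/-- The bound `4 x² + s² = x₀²`. -/
def sl (r : ℕ) : QC := ((4, 3 * r + 1, 3 * r + 1), (1, 3 * r + 2, 3 * r + 2), (-1, 0, 0))

/-- The first member of the chain. -/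
def c0 : QC := ((8, 3, 0), (-1, 0, 0), (0, 0, 0))

/-- The step of the chain. -/
def cst (k : ℕ) : QC := ((1, 3 * k + 3, 3 * k + 3), (-1, 3 * k + 6, 0), (0, 0, 0))

/-- The bound for the last member of the chain. -/
def csl (K : ℕ) : QC := ((1, 3 * K + 3, 3 * K + 3), (1, 3 * K + 6, 3 * K + 6), (-1, 0, 0))

/-- The length of the chain. -/
def kk (T : List ER.Con) : ℕ := gapK T.length

/-- The index of the last member of the chain. -/
def ee (T : List ER.Con) : ℕ := 3 * kk T + 3

/-- The homogeneous system. -/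
def xsys (T : List ER.Con) : List QC :=
  T.map (hc (svars T)) ++ ((List.range (svars T).length).map sl ++
    (c0 :: csl (kk T) :: (List.range (kk T)).map cst))

/-- The number of variables. -/
def xn (T : List ER.Con) : ℕ := 3 * ((svars T).length + kk T + 3)

theorem xsys_ne_nil (T : List ER.Con) : xsys T ≠ [] := by
  unfold xsys
  simp

theorem ee_lt (T : List ER.Con) : ee T < xn T := by
  unfold ee xn
  omega

theorem ixx_lt {T : List ER.Con} {c : ER.Con} (hc : c ∈ T) {i : ℕ} (hi : i ∈ c.vars) :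
    ixx (svars T) i < xn T := by
  unfold ixx xn
  have := List.idxOf_lt_length_of_mem (mem_svars hc hi)
  omega

theorem xsys_ok (T : List ER.Con) : ∀ g ∈ xsys T, GOk (xn T) g := by
  intro g hg
  have hpos : 0 < xn T := by unfold xn; omega
  unfold xsys at hg
  rw [List.mem_append, List.mem_append, List.mem_cons, List.mem_cons, List.mem_map, List.mem_map,
    List.mem_map] at hg
  rcases hg with ⟨c, hc', rfl⟩ | ⟨r, hr, rfl⟩ | rfl | rfl | ⟨k, hk, rfl⟩
  · cases c with
    | one i =>
      have h1 := ixx_lt hc' (i := i) (by simp [Con.vars])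
      exact ⟨⟨by simp [hc], h1, hpos⟩, ⟨by simp [hc], hpos, hpos⟩, ⟨by simp [hc], hpos, hpos⟩⟩
    | add i j k =>
      have h1 := ixx_lt hc' (i := i) (by simp [Con.vars])
      have h2 := ixx_lt hc' (i := j) (by simp [Con.vars])
      have h3 := ixx_lt hc' (i := k) (by simp [Con.vars])
      exact ⟨⟨by simp [hc], h1, hpos⟩, ⟨by simp [hc], h2, hpos⟩, ⟨by simp [hc], h3, hpos⟩⟩
    | mul i j k =>
      have h1 := ixx_lt hc' (i := i) (by simp [Con.vars])
      have h2 := ixx_lt hc' (i := j) (by simp [Con.vars])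
      have h3 := ixx_lt hc' (i := k) (by simp [Con.vars])
      exact ⟨⟨by simp [hc], h1, h2⟩, ⟨by simp [hc], h3, hpos⟩, ⟨by simp [hc], hpos, hpos⟩⟩
  · have := List.mem_range.1 hr
    have h1 : 3 * r + 1 < xn T := by unfold xn; omega
    have h2 : 3 * r + 2 < xn T := by unfold xn; omega
    exact ⟨⟨by simp [sl], h1, h1⟩, ⟨by simp [sl], h2, h2⟩, ⟨by simp [sl], hpos, hpos⟩⟩
  · have h1 : 3 < xn T := by unfold xn; omega
    exact ⟨⟨by simp [c0], h1, hpos⟩, ⟨by simp [c0], hpos, hpos⟩, ⟨by simp [c0], hpos, hpos⟩⟩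
  · have h1 : 3 * kk T + 3 < xn T := by unfold xn; omega
    have h2 : 3 * kk T + 6 < xn T := by unfold xn; omega
    exact ⟨⟨by simp [csl], h1, h1⟩, ⟨by simp [csl], h2, h2⟩, ⟨by simp [csl], hpos, hpos⟩⟩
  · have := List.mem_range.1 hk
    have h1 : 3 * k + 3 < xn T := by unfold xn; omega
    have h2 : 3 * k + 6 < xn T := by unfold xn; omega
    exact ⟨⟨by simp [cst], h1, h1⟩, ⟨by simp [cst], h2, hpos⟩, ⟨by simp [cst], hpos, hpos⟩⟩

/-- The estimate for the chain. -/
theorem chain_le {a : ℕ → ℝ} {K : ℕ} {f : ℝ} (h0 : |8 * a 0 - 1| ≤ |a K| / 16)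
    (hs : ∀ k < K, |a k ^ 2 - a (k + 1)| ≤ |a K| / 16)
    (hf : |a K ^ 2 + f ^ 2 - 1| ≤ |a K| / 16) :
    |a K| ≤ 2 * (1 / 8) ^ 2 ^ K := by
  set τ := |a K| with hτ
  have hτ0 : 0 ≤ τ := abs_nonneg _
  have hτ2 : τ ≤ 2 := by
    have h1 := (abs_le.1 hf).2
    have h2 : a K ^ 2 = τ ^ 2 := by rw [hτ, sq_abs]
    rw [h2] at h1
    nlinarith [sq_nonneg f]
  set β := τ / 16 with hβ
  have hβ8 : β ≤ 1 / 8 := by rw [hβ]; linarith
  have hβ0 : 0 ≤ β := by rw [hβ]; positivity
  have hk : ∀ k ≤ K, |a k| ≤ (1 / 8) ^ 2 ^ k + 2 * β := by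
    intro k
    induction k with
    | zero =>
      intro _
      have h1 := abs_le.1 h0
      rw [pow_zero, pow_one, abs_le]
      constructor <;> linarith
    | succ k ih =>
      intro hk
      have h1 := ih (by omega)
      have h2 := hs k (by omega)
      have h3 : |a (k + 1)| ≤ a k ^ 2 + β := by
        have := abs_le.1 h2
        rw [abs_le]
        constructor <;> nlinarith [sq_nonneg (a k)]
      set c : ℝ := (1 / 8) ^ 2 ^ k with hc
      have hc0 : 0 ≤ c := by positivity
      have hc8 : c ≤ 1 / 8 := by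
        rw [hc]
        calc ((1 : ℝ) / 8) ^ 2 ^ k ≤ (1 / 8) ^ 1 :=
            pow_le_pow_of_le_one (by norm_num) (by norm_num) Nat.one_le_two_pow
          _ = 1 / 8 := pow_one _
      have h4 : a k ^ 2 ≤ (c + 2 * β) ^ 2 := by
        rw [← sq_abs]
        exact pow_le_pow_left₀ (abs_nonneg _) h1 2
      have h5 : ((1 : ℝ) / 8) ^ 2 ^ (k + 1) = c ^ 2 := by
        rw [hc, ← pow_mul, pow_succ]
      rw [h5]
      nlinarith
  have h1 := hk K le_rfl
  rw [← hτ] at h1
  have h2 : (0 : ℝ) ≤ (1 / 8) ^ 2 ^ K := by positivity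
  have h3 : 2 * β = τ / 8 := by rw [hβ]; ring
  rw [h3] at h1
  linarith

/-- **Soundness.** -/
theorem sound {T : List ER.Con} {x : ℕ → ℝ} (h0 : x (ee T) * x 0 ≠ 0)
    (hg : ∀ g ∈ xsys T, |gev x x g| ≤ 1 / 8 * |x (ee T) * x 0|) :
    ∃ w', ∀ c ∈ T, c.HoldsC (1 / 8) w' := by
  have hx0 : x 0 ≠ 0 := right_ne_zero_of_mul h0
  have hxx : 0 < x 0 ^ 2 := by positivity
  set a : ℕ → ℝ := fun k => x (3 * k + 3) / x 0 with ha
  set τ : ℝ := |a (kk T)| with hτ
  have hτe : |x (ee T) * x 0| = τ * x 0 ^ 2 := by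
    rw [hτ, ha]
    simp only
    rw [abs_div, div_mul_eq_mul_div, abs_mul, ← sq_abs (x 0)]
    unfold ee
    have : |x 0| ≠ 0 := abs_ne_zero.2 hx0
    field_simp
  -- errors
  have herr : ∀ g ∈ xsys T, ∀ e : ℝ, gev x x g = 2 * e * x 0 ^ 2 → |e| ≤ τ / 16 := by
    intro g hg' e he
    have h1 := hg g hg'
    rw [hτe, he, abs_mul, abs_mul, abs_two, abs_of_pos hxx] at h1
    have h2 : 2 * |e| * x 0 ^ 2 ≤ (τ / 8) * x 0 ^ 2 := by linarith
    have h3 := le_of_mul_le_mul_right h2 hxx
    linarith
  have hchain : τ ≤ 2 * (1 / 8) ^ 2 ^ kk T := by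
    apply chain_le (a := a) (f := x (3 * kk T + 6) / x 0)
    · apply herr c0 (by unfold xsys; simp)
      simp only [gev, tev, bev, c0, ha]
      push_cast
      field_simp
      ring
    · intro k hk
      apply herr (cst k) (by
        unfold xsys
        simp only [List.mem_append, List.mem_cons, List.mem_map, List.mem_range]
        exact Or.inr (Or.inr (Or.inr (Or.inr ⟨k, hk, rfl⟩))))
      simp only [gev, tev, bev, cst, ha]
      rw [show 3 * (k + 1) + 3 = 3 * k + 6 by ring]
      push_cast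
      field_simp
      ring
    · apply herr (csl (kk T)) (by unfold xsys; simp)
      simp only [gev, tev, bev, csl, ha]
      push_cast
      field_simp
      ring
  have hτ0 : 0 ≤ τ := abs_nonneg _
  have hτ1 : τ ≤ 1 / 4 := by
    have : ((1 : ℝ) / 8) ^ 2 ^ kk T ≤ (1 / 8) ^ 1 :=
      pow_le_pow_of_le_one (by norm_num) (by norm_num) Nat.one_le_two_pow
    rw [pow_one] at this
    linarith
  refine holds_of_approx (w := fun i => x (ixx (svars T) i) / x 0) (fun i hi => ?_)
    (fun c hc' => ?_)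
  · have hr := List.idxOf_lt_length_of_mem hi
    have h1 := herr (sl ((svars T).idxOf i)) (by
      unfold xsys
      simp only [List.mem_append, List.mem_map, List.mem_range]
      exact Or.inr (Or.inl ⟨_, hr, rfl⟩))
      (4 * (x (ixx (svars T) i) / x 0) ^ 2 + (x (3 * (svars T).idxOf i + 2) / x 0) ^ 2 - 1) (by
        simp only [gev, tev, bev, sl, ixx]
        push_cast
        field_simp
        ring)
    have h2 := (abs_le.1 h1).2
    have h3 : (x (ixx (svars T) i) / x 0) ^ 2 ≤ 1 ^ 2 := by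
      nlinarith [sq_nonneg (x (3 * (svars T).idxOf i + 2) / x 0)]
    exact abs_le_of_sq_le_sq h3 zero_le_one
  · have h1 : |c.err fun i => x (ixx (svars T) i) / x 0| ≤ τ / 16 := by
      apply herr (hc (svars T) c) (by
        unfold xsys
        simp only [List.mem_append, List.mem_map]
        exact Or.inl ⟨c, hc', rfl⟩)
      cases c with
      | one i =>
        simp only [gev, tev, bev, hc, Con.err]
        push_cast
        field_simp
        ring
      | add i j k =>
        simp only [gev, tev, bev, hc, Con.err]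
        push_cast
        field_simp
        ring
      | mul i j k =>
        simp only [gev, tev, bev, hc, Con.err]
        push_cast
        field_simp
        ring
    have h2 : |c.err fun i => x (ixx (svars T) i) / x 0| ≤ (1 / 8) ^ 2 ^ kk T := by
      have : (0 : ℝ) ≤ (1 / 8) ^ 2 ^ kk T := by positivity
      linarith
    calc |c.err fun i => x (ixx (svars T) i) / x 0| * 2 ^ 2 ^ gapK T.length
        ≤ (1 / 8) ^ 2 ^ kk T * 2 ^ 2 ^ gapK T.length := by gcongr
      _ = (1 / 4) ^ 2 ^ kk T := by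
        unfold kk
        rw [← mul_pow]
        norm_num
      _ ≤ 1 := pow_le_one₀ (by norm_num) (by norm_num)

/-- **Completeness.** -/
theorem complete {S : List ER.Con} (h : Sat S) : ∃ x : ℕ → ℝ, x 0 = 1 ∧ 0 < x (ee (bsys S)) ∧
    ∀ g ∈ xsys (bsys S), gev x x g = 0 := by
  obtain ⟨w, hw, hc'⟩ := bsys_of_sat h
  set T := bsys S with hT
  set V := svars T with hV
  set ch : ℕ → ℝ := fun k => if k ≤ kk T then (1 / 8) ^ 2 ^ k else
    Real.sqrt (1 - ((1 / 8) ^ 2 ^ kk T) ^ 2) with hch
  let x : ℕ → ℝ := fun i => if i = 0 then 1 else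
    if (i - 1) % 3 = 0 then w (V.getD ((i - 1) / 3) 0) else
    if (i - 1) % 3 = 1 then Real.sqrt (1 - 4 * w (V.getD ((i - 1) / 3) 0) ^ 2) else
      ch ((i - 1) / 3)
  have x0 : x 0 = 1 := by simp [x]
  have x1 : ∀ r, x (3 * r + 1) = w (V.getD r 0) := by
    intro r
    simp only [x]
    rw [if_neg (by omega), if_pos (by omega), show (3 * r + 1 - 1) / 3 = r by omega]
  have x2 : ∀ r, x (3 * r + 2) = Real.sqrt (1 - 4 * w (V.getD r 0) ^ 2) := by
    intro r
    simp only [x]
    rw [if_neg (by omega), if_neg (by omega), if_pos (by omega),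
      show (3 * r + 2 - 1) / 3 = r by omega]
  have x3 : ∀ k, x (3 * k + 3) = ch k := by
    intro k
    simp only [x]
    rw [if_neg (by omega), if_neg (by omega), if_neg (by omega),
      show (3 * k + 3 - 1) / 3 = k by omega]
  have x6 : ∀ k, x (3 * k + 6) = ch (k + 1) := fun k => by
    rw [show 3 * k + 6 = 3 * (k + 1) + 3 by ring, x3]
  have xi : ∀ i ∈ V, x (ixx V i) = w i := by
    intro i hi
    have h1 := List.idxOf_lt_length_of_mem hi
    unfold ixx
    rw [x1, List.getD_eq_getElem _ _ h1, List.getElem_idxOf h1]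
  refine ⟨x, x0, ?_, fun g hg => ?_⟩
  · unfold ee
    rw [x3, hch]
    simp only [le_refl, if_true]
    positivity
  unfold xsys at hg
  rw [List.mem_append, List.mem_append, List.mem_cons, List.mem_cons, List.mem_map, List.mem_map,
    List.mem_map] at hg
  rcases hg with ⟨c, hcT, rfl⟩ | ⟨r, hr, rfl⟩ | rfl | rfl | ⟨k, hk, rfl⟩
  · have hh := hc' c hcT
    cases c with
    | one i =>
      have e1 := xi i (mem_svars hcT (by simp [Con.vars]))
      simp only [Con.HoldsC] at hh
      simp only [gev, tev, bev, hc]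
      rw [← hV, e1, x0, hh]
      push_cast
      norm_num
    | add i j k =>
      have e1 := xi i (mem_svars hcT (by simp [Con.vars]))
      have e2 := xi j (mem_svars hcT (by simp [Con.vars]))
      have e3 := xi k (mem_svars hcT (by simp [Con.vars]))
      simp only [Con.HoldsC] at hh
      simp only [gev, tev, bev, hc]
      rw [← hV, e1, e2, e3, x0, ← hh]
      push_cast
      ring
    | mul i j k =>
      have e1 := xi i (mem_svars hcT (by simp [Con.vars]))
      have e2 := xi j (mem_svars hcT (by simp [Con.vars]))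
      have e3 := xi k (mem_svars hcT (by simp [Con.vars]))
      simp only [Con.HoldsC] at hh
      simp only [gev, tev, bev, hc]
      rw [← hV, e1, e2, e3, x0, ← hh]
      push_cast
      ring
  · simp only [gev, tev, bev, sl]
    rw [x1 r, x2 r, x0]
    push_cast
    have h1 : 0 ≤ 1 - 4 * w (V.getD r 0) ^ 2 := by
      have := hw (V.getD r 0)
      have h2 : w (V.getD r 0) ^ 2 ≤ (1 / 8) ^ 2 := by
        rw [← sq_abs]
        exact pow_le_pow_left₀ (abs_nonneg _) this 2
      have h3 : ((1 : ℝ) / 8) ^ 2 = 1 / 64 := by norm_num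
      linarith
    have h2 := Real.mul_self_sqrt h1
    nlinarith
  · simp only [gev, tev, bev, c0]
    have h3 : x 3 = 1 / 8 := by
      have := x3 0
      simp only [mul_zero, zero_add] at this
      rw [this, hch]
      simp
    rw [h3, x0]
    norm_num
  · simp only [gev, tev, bev, csl]
    rw [x3, x6, x0, hch]
    simp only [le_refl, if_true]
    rw [if_neg (by omega)]
    push_cast
    have h1 : 0 ≤ 1 - (((1 : ℝ) / 8) ^ 2 ^ kk T) ^ 2 := by
      have h2 : ((1 : ℝ) / 8) ^ 2 ^ kk T ≤ 1 := pow_le_one₀ (by norm_num) (by norm_num)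
      have h3 : (0 : ℝ) ≤ (1 / 8) ^ 2 ^ kk T := by positivity
      nlinarith
    have h2 := Real.mul_self_sqrt h1
    nlinarith
  · have hk := List.mem_range.1 hk
    simp only [gev, tev, bev, cst]
    rw [x3, x6, x0, hch]
    simp only
    rw [if_pos hk.le, if_pos (by omega), pow_succ, pow_mul]
    push_cast
    ring

end Pool.Agent.H728.SN
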