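import Pool.Agent.H728.SN.Defs
import Pool.Agent.H728.SN.Geo
import Pool.Agent.H728.SN.Sys
import Pool.Agent.H78R3.TSV.Red

/-!
# The spectral norm of the tensor of a list of forms
-/

namespace Pool.Agent.H728.SN

open Finset Pool.Agent.NPC Pool.Agent.NPC.ER Pool.Agent.H78R3.TSV

theorem abs_coord_le {d : ℕ} {x : EuclideanSpace ℝ (Fin d)} (hx : ‖x‖ = 1) (i : Fin d) :
    |x i| ≤ 1 := by
  have := PiLp.norm_apply_le x i
  rw [hx, Real.norm_eq_abs] at this
  exact this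

theorem bddAbove_tval {d : ℕ} (t : Fin d → Fin d → Fin d → ℝ) :
    BddAbove {r | ∃ x y z : EuclideanSpace ℝ (Fin d), ‖x‖ = 1 ∧ ‖y‖ = 1 ∧ ‖z‖ = 1 ∧
      r = |tval t x y z|} := by
  refine ⟨∑ i, ∑ j, ∑ k, |t i j k|, ?_⟩
  rintro r ⟨x, y, z, hx, hy, hz, rfl⟩
  unfold tval
  refine (abs_sum_le_sum_abs _ _).trans (sum_le_sum fun i _ => ?_)
  refine (abs_sum_le_sum_abs _ _).trans (sum_le_sum fun j _ => ?_)
  refine (abs_sum_le_sum_abs _ _).trans (sum_le_sum fun k _ => ?_)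
  rw [abs_mul, abs_mul, abs_mul]
  have h1 := abs_coord_le hx i
  have h2 := abs_coord_le hy j
  have h3 := abs_coord_le hz k
  calc |t i j k| * |x i| * |y j| * |z k| ≤ |t i j k| * 1 * 1 * 1 := by gcongr
    _ = |t i j k| := by ring

theorem lt_spectralNorm_iff {d : ℕ} (t : Fin d → Fin d → Fin d → ℝ) {σ : ℝ} (hσ : 0 < σ) :
    σ < spectralNorm t ↔ ∃ x y z : EuclideanSpace ℝ (Fin d), ‖x‖ = 1 ∧ ‖y‖ = 1 ∧ ‖z‖ = 1 ∧
      σ < |tval t x y z| := by
  unfold spectralNorm
  constructor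
  · intro h
    rcases Set.eq_empty_or_nonempty {r | ∃ x y z : EuclideanSpace ℝ (Fin d),
      ‖x‖ = 1 ∧ ‖y‖ = 1 ∧ ‖z‖ = 1 ∧ r = |tval t x y z|} with he | hne
    · rw [he, Real.sSup_empty] at h
      exact absurd h (not_lt.2 hσ.le)
    · obtain ⟨r, ⟨x, y, z, hx, hy, hz, rfl⟩, hr⟩ := exists_lt_of_lt_csSup hne h
      exact ⟨x, y, z, hx, hy, hz, hr⟩
  · rintro ⟨x, y, z, hx, hy, hz, h⟩
    exact lt_of_lt_of_le h (le_csSup (bddAbove_tval t) ⟨x, y, z, hx, hy, hz, rfl⟩)

/-- A version with vectors indexed by all natural numbers. -/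
def Large (d : ℕ) (t : ℕ → ℕ → ℕ → ℝ) (σ : ℝ) : Prop :=
  ∃ x y z : ℕ → ℝ, ∑ i ∈ range d, x i ^ 2 = 1 ∧ ∑ i ∈ range d, y i ^ 2 = 1 ∧
    ∑ i ∈ range d, z i ^ 2 = 1 ∧
    σ < ∑ k ∈ range d, z k * ∑ i ∈ range d, ∑ j ∈ range d, t i j k * x i * y j

theorem sum3_eq (d : ℕ) (t : ℕ → ℕ → ℕ → ℝ) (x y z : ℕ → ℝ) :
    ∑ k ∈ range d, z k * ∑ i ∈ range d, ∑ j ∈ range d, t i j k * x i * y j =
      ∑ i : Fin d, ∑ j : Fin d, ∑ k : Fin d, t i j k * x i * y j * z k := by
  have e1 : ∀ k, z k * ∑ i ∈ range d, ∑ j ∈ range d, t i j k * x i * y j =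
      ∑ i ∈ range d, ∑ j ∈ range d, t i j k * x i * y j * z k := by
    intro k
    rw [mul_sum]
    refine sum_congr rfl fun i _ => ?_
    rw [mul_sum]
    exact sum_congr rfl fun j _ => by ring
  simp_rw [e1]
  rw [sum_comm]
  rw [← Fin.sum_univ_eq_sum_range (fun i => ∑ k ∈ range d, ∑ j ∈ range d,
    t i j k * x i * y j * z k)]
  refine sum_congr rfl fun i _ => ?_
  rw [sum_comm]
  rw [← Fin.sum_univ_eq_sum_range (fun j => ∑ k ∈ range d, t i j k * x i * y j * z k)]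
  refine sum_congr rfl fun j _ => ?_
  rw [← Fin.sum_univ_eq_sum_range (fun k => t i j k * x i * y j * z k)]

theorem large_iff {d : ℕ} (t : ℕ → ℕ → ℕ → ℝ) {σ : ℝ} :
    (∃ x y z : EuclideanSpace ℝ (Fin d), ‖x‖ = 1 ∧ ‖y‖ = 1 ∧ ‖z‖ = 1 ∧
      σ < |tval (fun i j k : Fin d => t i j k) x y z|) ↔ Large d t σ := by
  constructor
  · rintro ⟨x, y, z, hx, hy, hz, h⟩
    -- the sign can be absorbed
    obtain ⟨z', hz', h'⟩ : ∃ z' : EuclideanSpace ℝ (Fin d), ‖z'‖ = 1 ∧
        σ < tval (fun i j k : Fin d => t i j k) x y z' := by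
      rcases abs_cases (tval (fun i j k : Fin d => t i j k) x y z) with h1 | h1
      · exact ⟨z, hz, by rw [← h1.1]; exact h⟩
      · refine ⟨-z, by rw [norm_neg, hz], ?_⟩
        have : tval (fun i j k : Fin d => t i j k) x y (-z) =
            -tval (fun i j k : Fin d => t i j k) x y z := by
          unfold tval
          simp only [PiLp.neg_apply, mul_neg, sum_neg_distrib]
        rw [this, ← h1.1]
        exact h
    rw [norm_eq_one_iff] at hx hy hz'
    let X : ℕ → ℝ := fun i => if h : i < d then x ⟨i, h⟩ else 0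
    let Y : ℕ → ℝ := fun i => if h : i < d then y ⟨i, h⟩ else 0
    let Z : ℕ → ℝ := fun i => if h : i < d then z' ⟨i, h⟩ else 0
    have eX : ∀ i : Fin d, X i = x i := fun i => by simp [X]
    have eY : ∀ i : Fin d, Y i = y i := fun i => by simp [Y]
    have eZ : ∀ i : Fin d, Z i = z' i := fun i => by simp [Z]
    refine ⟨X, Y, Z, ?_, ?_, ?_, ?_⟩
    · rw [← Fin.sum_univ_eq_sum_range (fun i => X i ^ 2)]; simpa only [eX] using hx
    · rw [← Fin.sum_univ_eq_sum_range (fun i => Y i ^ 2)]; simpa only [eY] using hy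
    · rw [← Fin.sum_univ_eq_sum_range (fun i => Z i ^ 2)]; simpa only [eZ] using hz'
    · rw [sum3_eq]
      simp only [eX, eY, eZ]
      exact h'
  · rintro ⟨x, y, z, hx, hy, hz, h⟩
    refine ⟨WithLp.toLp 2 fun i => x i, WithLp.toLp 2 fun i => y i, WithLp.toLp 2 fun i => z i,
      ?_, ?_, ?_, ?_⟩
    · rw [norm_eq_one_iff, ← hx]
      exact Fin.sum_univ_eq_sum_range (fun i => x i ^ 2) d
    · rw [norm_eq_one_iff, ← hy]
      exact Fin.sum_univ_eq_sum_range (fun i => y i ^ 2) d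
    · rw [norm_eq_one_iff, ← hz]
      exact Fin.sum_univ_eq_sum_range (fun i => z i ^ 2) d
    · rw [sum3_eq] at h
      exact lt_of_lt_of_le h (le_abs_self _)

/-- Large values and sums of squares of forms. -/
theorem large_ten_iff {d : ℕ} {L : List (List QT)} (hL : ∀ f ∈ L, FOk d f) (hd : L.length ≤ d)
    {σ : ℝ} (hσ : 0 < σ) : Large d (fun i j k => (ten L i j k : ℝ)) σ ↔
      ∃ x y : ℕ → ℝ, ∑ i ∈ range d, x i ^ 2 = 1 ∧ ∑ i ∈ range d, y i ^ 2 = 1 ∧
        σ ^ 2 < S x y x y L := by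
  have e : ∀ (x y : ℕ → ℝ) (k : ℕ), ∑ i ∈ range d, ∑ j ∈ range d,
      (ten L i j k : ℝ) * x i * y j = fev x y (L.getD k []) := fun x y k =>
    sum_cf d _ (fok_getD hL k) x y
  have hS : ∀ x y : ℕ → ℝ, ∑ k ∈ range d, fev x y (L.getD k []) ^ 2 = S x y x y L := by
    intro x y
    rw [sum_getD L hd (fun f => fev x y f ^ 2) (by simp)]
    unfold S
    congr 1
    exact List.map_congr_left fun f _ => by ring
  constructor
  · rintro ⟨x, y, z, hx, hy, hz, h⟩
    refine ⟨x, y, hx, hy, ?_⟩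
    simp only [e] at h
    have h1 := sum_mul_sq_le_sq_mul_sq (range d) z (fun k => fev x y (L.getD k []))
    rw [hz, one_mul, hS] at h1
    nlinarith
  · rintro ⟨x, y, hx, hy, h⟩
    have hpos : 0 < S x y x y L := lt_trans (by positivity) h
    have hs0 : 0 < Real.sqrt (S x y x y L) := Real.sqrt_pos.2 hpos
    have hs2 : Real.sqrt (S x y x y L) ^ 2 = S x y x y L := Real.sq_sqrt hpos.le
    refine ⟨x, y, fun k => fev x y (L.getD k []) / Real.sqrt (S x y x y L), hx, hy, ?_, ?_⟩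
    · simp_rw [div_pow, hs2]
      rw [← sum_div, hS, div_self hpos.ne']
    · simp only [e]
      have h2 : ∑ k ∈ range d, fev x y (L.getD k []) / Real.sqrt (S x y x y L) *
          fev x y (L.getD k []) = S x y x y L / Real.sqrt (S x y x y L) := by
        rw [← hS, sum_div]
        exact sum_congr rfl fun k _ => by ring
      rw [h2, lt_div_iff₀ hs0]
      have h3 : σ < Real.sqrt (S x y x y L) := Real.lt_sqrt_of_sq_lt h
      nlinarith

theorem fok_xforms {n : ℕ} {G : List QC} (hG : ∀ g ∈ G, GOk n g) {E : ℕ} (hE : E < n) :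
    ∀ f ∈ xforms n G E, FOk n f := by
  intro f hf
  unfold xforms at hf
  rw [List.mem_append, List.mem_flatMap] at hf
  rcases hf with ⟨_, _, hf⟩ | hf
  · exact fok_forms hG f hf
  · rw [List.mem_singleton] at hf
    subst hf
    intro t ht
    rw [List.mem_singleton] at ht
    subst ht
    refine ⟨hE, ?_⟩
    show 0 < n
    omega

attribute [local irreducible] xforms

/-- The dimension of the tensor. -/
def dimX (T : List ER.Con) : ℕ := xn T + (xforms (xn T) (xsys T) (ee T)).length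

/-- The instance of a system: a tensor and a number. -/
def instX (S : List ER.Con) : List (List (List ℚ)) × ℚ :=
  (tenL (dimX (bsys S)) (xforms (xn (bsys S)) (xsys (bsys S)) (ee (bsys S))),
    (((3072 * (xsys (bsys S)).length : ℕ) : ℤ) : ℚ))

theorem gev_smul (x : ℕ → ℝ) (r : ℝ) (w : ℕ → ℝ) {n : ℕ} (hw : ∀ i < n, w i = x i / r) {g : QC}
    (hg : GOk n g) : gev w w g = gev x x g / (r * r) := by
  obtain ⟨⟨-, a2, a3⟩, ⟨-, b2, b3⟩, ⟨-, c2, c3⟩⟩ := hg
  unfold gev tev bev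
  rw [hw _ a2, hw _ a3, hw _ b2, hw _ b3, hw _ c2, hw _ c3]
  field_simp

/-- **Correctness of the reduction.** -/
theorem sat_iff_large (S₀ : List ER.Con) : Sat S₀ ↔ ∃ x y : ℕ → ℝ,
    ∑ i ∈ range (dimX (bsys S₀)), x i ^ 2 = 1 ∧ ∑ i ∈ range (dimX (bsys S₀)), y i ^ 2 = 1 ∧
    (3072 * ((xsys (bsys S₀)).length : ℝ)) ^ 2 <
      S x y x y (xforms (xn (bsys S₀)) (xsys (bsys S₀)) (ee (bsys S₀))) := by
  set T := bsys S₀ with hT
  have hsub : range (xn T) ⊆ range (dimX T) := by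
    intro i hi
    rw [mem_range] at hi ⊢
    unfold dimX
    omega
  constructor
  · intro h
    obtain ⟨x, x0, xe, hx⟩ := complete h
    set s := ∑ i ∈ range (xn T), x i ^ 2 with hs
    have h0n : 0 < xn T := by unfold xn; omega
    have hs1 : 1 ≤ s := by
      have h1 : x 0 ^ 2 ≤ s :=
        single_le_sum (f := fun i => x i ^ 2) (fun i _ => sq_nonneg (x i)) (mem_range.2 h0n)
      rw [x0] at h1
      linarith
    have hr0 : 0 < Real.sqrt s := Real.sqrt_pos.2 (by linarith)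
    have hr2 : Real.sqrt s ^ 2 = s := Real.sq_sqrt (by linarith)
    let w : ℕ → ℝ := fun i => if i < xn T then x i / Real.sqrt s else 0
    have hwi : ∀ i < xn T, w i = x i / Real.sqrt s := fun i hi => if_pos hi
    have hw1 : ∑ i ∈ range (xn T), w i ^ 2 = 1 := by
      have : ∀ i ∈ range (xn T), w i ^ 2 = x i ^ 2 / s := by
        intro i hi
        rw [hwi i (mem_range.1 hi), div_pow, hr2]
      rw [sum_congr rfl this, ← sum_div, ← hs, div_self (by linarith)]
    have hw2 : ∑ i ∈ range (dimX T), w i ^ 2 = 1 := by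
      rw [← hw1]
      refine (sum_subset hsub fun i _ hi => ?_).symm
      rw [mem_range] at hi
      simp only [w]
      rw [if_neg hi]
      ring
    refine ⟨w, w, hw2, hw2, ?_⟩
    rw [S_xforms w w (xsys_ok T)]
    have hww : ∑ i ∈ range (xn T), w i * w i = 1 := by
      rw [← hw1]
      exact sum_congr rfl fun i _ => by ring
    have hQ : ((xsys T).map fun g => gev w w g ^ 2).sum = 0 := by
      apply List.sum_eq_zero
      intro a ha
      obtain ⟨g, hg, rfl⟩ := List.mem_map.1 ha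
      rw [gev_smul x (Real.sqrt s) w hwi (xsys_ok T g hg), hx g hg]
      simp
    rw [hw1, hww, hQ]
    have hb : 0 < bev w w (ee T, 0) ^ 2 := by
      have h1 : bev w w (ee T, 0) ≠ 0 := by
        unfold bev
        simp only
        rw [hwi _ (ee_lt T), hwi _ h0n, x0]
        have : 0 < x (ee T) / Real.sqrt s * (1 / Real.sqrt s) :=
          mul_pos (div_pos xe hr0) (div_pos one_pos hr0)
        have h2 : x (ee T) / Real.sqrt s * (1 / Real.sqrt s) +
            1 / Real.sqrt s * (x (ee T) / Real.sqrt s) =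
            2 * (x (ee T) / Real.sqrt s * (1 / Real.sqrt s)) := by ring
        rw [h2]
        exact (mul_pos two_pos this).ne'
      exact lt_of_le_of_ne (sq_nonneg _) (Ne.symm (pow_ne_zero 2 h1))
    have : (3072 * ((xsys T).length : ℝ)) ^ 2 = 4096 * (576 * ((xsys T).length : ℝ) ^ 2 *
      (2 * (1 * 1) + 2 * 1 ^ 2) - ((xsys T).length : ℝ) * 0) := by ring
    rw [this]
    linarith
  · rintro ⟨x, y, hx, hy, h⟩
    have hx' : ∑ i ∈ range (xn T), x i ^ 2 ≤ 1 := by
      rw [← hx]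
      exact sum_le_sum_of_subset_of_nonneg hsub fun i _ _ => sq_nonneg _
    have hy' : ∑ i ∈ range (xn T), y i ^ 2 ≤ 1 := by
      rw [← hy]
      exact sum_le_sum_of_subset_of_nonneg hsub fun i _ _ => sq_nonneg _
    obtain ⟨h1, h2⟩ := approx_of_large (xsys_ok T) (xsys_ne_nil T) (ee_lt T) hx' hy' h
    obtain ⟨w, hw⟩ := sound h1 h2
    exact sat_of_bsys hw

theorem large_congr {d : ℕ} {t t' : ℕ → ℕ → ℕ → ℝ} {σ : ℝ}
    (h : ∀ i < d, ∀ j < d, ∀ k < d, t i j k = t' i j k) : Large d t σ ↔ Large d t' σ := by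
  have key : ∀ t t' : ℕ → ℕ → ℕ → ℝ, (∀ i < d, ∀ j < d, ∀ k < d, t i j k = t' i j k) →
      Large d t σ → Large d t' σ := by
    rintro t t' h ⟨x, y, z, hx, hy, hz, h1⟩
    refine ⟨x, y, z, hx, hy, hz, ?_⟩
    refine lt_of_lt_of_eq h1 (sum_congr rfl fun k hk => ?_)
    congr 1
    exact sum_congr rfl fun i hi => sum_congr rfl fun j hj => by
      rw [h i (mem_range.1 hi) j (mem_range.1 hj) k (mem_range.1 hk)]
  exact ⟨key t t' h, key t' t fun i hi j hj k hk => (h i hi j hj k hk).symm⟩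

theorem exceed_iff (q : List (List (List ℚ)) × ℚ) : NormExceed q ↔ IsCube q.1 ∧ 0 < q.2 ∧
    Large q.1.length (fun i j k => ((entry q.1 i j k : ℚ) : ℝ)) (q.2 : ℝ) := by
  unfold NormExceed
  constructor
  · rintro ⟨h1, h2, h3⟩
    have h2' : (0 : ℝ) < (q.2 : ℝ) := by exact_mod_cast h2
    rw [lt_spectralNorm_iff _ h2'] at h3
    exact ⟨h1, h2, (large_iff (fun i j k => ((entry q.1 i j k : ℚ) : ℝ))).1 h3⟩
  · rintro ⟨h1, h2, h3⟩
    have h2' : (0 : ℝ) < (q.2 : ℝ) := by exact_mod_cast h2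
    refine ⟨h1, h2, ?_⟩
    rw [lt_spectralNorm_iff _ h2']
    exact (large_iff (fun i j k => ((entry q.1 i j k : ℚ) : ℝ))).2 h3

theorem exceed_tenL (d : ℕ) (L : List (List QT)) (q : ℚ) (hq : 0 < q) :
    NormExceed (tenL d L, q) ↔ Large d (fun i j k => (ten L i j k : ℝ)) (q : ℝ) := by
  rw [exceed_iff]
  have h3 : (tenL d L).length = d := length_tenL _ _
  simp only [h3]
  have key := large_congr (d := d) (t := fun i j k => (ten L i j k : ℝ))
    (t' := fun i j k => ((entry (tenL d L) i j k : ℚ) : ℝ)) (σ := (q : ℝ))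
    (fun i hi j hj k hk => by
      show (ten L i j k : ℝ) = ((entry (tenL d L) i j k : ℚ) : ℝ)
      rw [entry_tenL hi hj hk]
      push_cast
      rfl)
  rw [key]
  exact ⟨fun h => h.2.2, fun h => ⟨isCube_tenL _ _, hq, h⟩⟩

/-- Correctness for the problem Spectral Norm Exceed. -/
theorem sat_iff_exceed (S₀ : List ER.Con) : Sat S₀ ↔ NormExceed (instX S₀) := by
  have hne := xsys_ne_nil (bsys S₀)
  have hpos : 0 < (xsys (bsys S₀)).length := List.length_pos_iff.2 hne
  have h2 : (0 : ℚ) < (((3072 * (xsys (bsys S₀)).length : ℕ) : ℤ) : ℚ) := by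
    exact_mod_cast (by omega : 0 < 3072 * (xsys (bsys S₀)).length)
  have h4 : (((((3072 * (xsys (bsys S₀)).length : ℕ) : ℤ) : ℚ)) : ℝ) =
      3072 * ((xsys (bsys S₀)).length : ℝ) := by
    push_cast
    ring
  have h5 : (0 : ℝ) < 3072 * ((xsys (bsys S₀)).length : ℝ) := by
    have : (0 : ℝ) < ((xsys (bsys S₀)).length : ℝ) := by exact_mod_cast hpos
    linarith
  unfold instX
  rw [exceed_tenL _ _ _ h2, h4, large_ten_iff ?_ ?_ h5, sat_iff_large]
  · intro f hf t ht
    have := fok_xforms (xsys_ok (bsys S₀)) (ee_lt (bsys S₀)) f hf t ht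
    unfold dimX
    omega
  · unfold dimX
    omega

/-- Correctness for the problem Spectral Norm Bound. -/
theorem bound_iff_not_exceed {q : List (List (List ℚ)) × ℚ} (h1 : IsCube q.1) (h2 : 0 < q.2) :
    NormBound q ↔ ¬ NormExceed q := by
  unfold NormBound NormExceed
  constructor
  · rintro ⟨-, -, h⟩ ⟨-, -, h'⟩
    exact absurd h' (not_lt.2 h)
  · intro h
    exact ⟨h1, h2, not_lt.1 fun h' => h ⟨h1, h2, h'⟩⟩

theorem sat_iff_not_bound (S₀ : List ER.Con) : Sat S₀ ↔ ¬ NormBound (instX S₀) := by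
  have hne := xsys_ne_nil (bsys S₀)
  have hpos : 0 < (xsys (bsys S₀)).length := List.length_pos_iff.2 hne
  have h2 : (0 : ℚ) < (((3072 * (xsys (bsys S₀)).length : ℕ) : ℤ) : ℚ) := by
    exact_mod_cast (by omega : 0 < 3072 * (xsys (bsys S₀)).length)
  have h3 := bound_iff_not_exceed (q := instX S₀) (isCube_tenL _ _) h2
  rw [h3, not_not]
  exact sat_iff_exceed S₀

end Pool.Agent.H728.SN
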