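import Pool.Agent.H728.SN.Norm
import Pool.Agent.H78R3.TSV.Time

/-!
# The reduction is computable in polynomial time
-/

namespace Pool.Agent.NPC.H728SN

open Pool.Agent.NPC Pool.Agent.NPC.ER Pool.Agent.H78R3.TSV Pool.Agent.H728.SN

section

variable {α : Type} [TEnc α]

theorem poly_ixx {V : α → List ℕ} {i : α → ℕ} (hV : Poly V) (hi : Poly i) :
    Poly (fun a => ixx (V a) (i a)) :=
  Poly.add (Poly.mul (Poly.const 3) (H612.poly_idxOf hV hi)) (Poly.const 1)

theorem hc_eq (V : List ℕ) (c : ER.Con) : hc V c =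
    if c.code.1 = 0 then ((8, ixx V c.code.2.1, 0), (-1, 0, 0), (0, 0, 0))
    else if c.code.1 = 1 then ((1, ixx V c.code.2.1, 0), (1, ixx V c.code.2.2.1, 0),
      (-1, ixx V c.code.2.2.2, 0))
    else ((1, ixx V c.code.2.1, ixx V c.code.2.2.1), (-1, ixx V c.code.2.2.2, 0), (0, 0, 0)) := by
  cases c <;> rfl

theorem poly_hc {V : α → List ℕ} {c : α → ER.Con} (hV : Poly V) (hc' : Poly c) :
    Poly (fun a => hc (V a) (c a)) := by
  have h0 : Poly (fun a => (c a).code) := poly_con_code hc'
  have i1 := poly_ixx hV (Poly.fst (Poly.snd h0))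
  have i2 := poly_ixx hV (Poly.fst (Poly.snd (Poly.snd h0)))
  have i3 := poly_ixx hV (Poly.snd (Poly.snd (Poly.snd h0)))
  have z : Poly (fun _ : α => (0 : ℕ)) := Poly.const 0
  refine (Poly.ite (Poly.decide_eq (Poly.fst h0) (Poly.const 0))
    (Poly.pair (Poly.pair (Poly.const 8) (Poly.pair i1 z)) (Poly.const _))
    (Poly.ite (Poly.decide_eq (Poly.fst h0) (Poly.const 1))
      (Poly.pair (Poly.pair (Poly.const 1) (Poly.pair i1 z))
        (Poly.pair (Poly.pair (Poly.const 1) (Poly.pair i2 z))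
          (Poly.pair (Poly.const (-1)) (Poly.pair i3 z))))
      (Poly.pair (Poly.pair (Poly.const 1) (Poly.pair i1 i2))
        (Poly.pair (Poly.pair (Poly.const (-1)) (Poly.pair i3 z)) (Poly.const _))))).congr
    fun a => (hc_eq _ _).symm

theorem poly_aff {r : α → ℕ} (hr : Poly r) (c : ℕ) : Poly (fun a => 3 * r a + c) :=
  Poly.add (Poly.mul (Poly.const 3) hr) (Poly.const c)

theorem poly_sl {r : α → ℕ} (hr : Poly r) : Poly (fun a => sl (r a)) :=
  Poly.pair (Poly.pair (Poly.const 4) (Poly.pair (poly_aff hr 1) (poly_aff hr 1)))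
    (Poly.pair (Poly.pair (Poly.const 1) (Poly.pair (poly_aff hr 2) (poly_aff hr 2)))
      (Poly.const _))

theorem poly_cst {r : α → ℕ} (hr : Poly r) : Poly (fun a => cst (r a)) :=
  Poly.pair (Poly.pair (Poly.const 1) (Poly.pair (poly_aff hr 3) (poly_aff hr 3)))
    (Poly.pair (Poly.pair (Poly.const (-1)) (Poly.pair (poly_aff hr 6) (Poly.const 0)))
      (Poly.const _))

theorem poly_csl {r : α → ℕ} (hr : Poly r) : Poly (fun a => csl (r a)) :=
  Poly.pair (Poly.pair (Poly.const 1) (Poly.pair (poly_aff hr 3) (poly_aff hr 3)))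
    (Poly.pair (Poly.pair (Poly.const 1) (Poly.pair (poly_aff hr 6) (poly_aff hr 6)))
      (Poly.const _))

theorem upoly_kk {T : α → List ER.Con} (hT : Poly T) : UPoly (fun a => kk (T a)) :=
  UPoly.add (UPoly.mul (UPoly.const 11) (UPoly.length hT)) (UPoly.const 7)

theorem poly_xsys {T : α → List ER.Con} (hT : Poly T) : Poly (fun a => xsys (T a)) := by
  have hV := H78TSV.poly_svars hT
  have hK := upoly_kk hT
  refine Poly.append ?_ (Poly.append ?_ (Poly.cons (Poly.const _) (Poly.cons
    (poly_csl hK.toPoly) ?_)))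
  · exact Poly.map (F := fun a c => hc (svars (T a)) c) hT
      (poly_hc (hV.comp (Poly.fst Poly.id)) (Poly.snd Poly.id))
  · exact Poly.map (F := fun _ r => sl r) (UPoly.length hV).range (poly_sl (Poly.snd Poly.id))
  · exact Poly.map (F := fun _ r => cst r) hK.range (poly_cst (Poly.snd Poly.id))

theorem upoly_xn {T : α → List ER.Con} (hT : Poly T) : UPoly (fun a => xn (T a)) :=
  UPoly.mul (UPoly.const 3) (UPoly.add (UPoly.add (UPoly.length (H78TSV.poly_svars hT))
    (upoly_kk hT)) (UPoly.const 3))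

theorem poly_ee {T : α → List ER.Con} (hT : Poly T) : Poly (fun a => ee (T a)) :=
  poly_aff (upoly_kk hT).toPoly 3

theorem poly_xforms {n E : α → ℕ} {G : α → List QC} (hn : UPoly n) (hG : Poly G) (hE : Poly E) :
    Poly (fun a => xforms (n a) (G a) (E a)) := by
  refine Poly.append ?_ ?_
  · refine Poly.flatMap (F := fun a _ => forms (n a) (G a)) (Poly.const (List.range 4096)) ?_
    exact (H78TSV.poly_forms hn hG).comp (Poly.fst Poly.id)
  · exact Poly.cons (Poly.cons (Poly.pair (Poly.const 1) (Poly.pair hE (Poly.const 0)))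
      (Poly.const [])) (Poly.const [])

theorem poly_instX {S : α → List ER.Con} (hS : Poly S) : Poly (fun a => instX (S a)) := by
  have hT := poly_bsys hS
  have hG := poly_xsys hT
  have hF := poly_xforms (upoly_xn hT) hG (poly_ee hT)
  refine Poly.pair (H78TSV.poly_tenL (UPoly.add (upoly_xn hT) (UPoly.length hF)) hF) ?_
  exact H78TSV.poly_intToRat (Poly.natCast (Poly.mul (Poly.const 3072) (Poly.length hG)))

end

end Pool.Agent.NPC.H728SN
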